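import Pool.Agent.H16.STR.Lit
import Pool.Agent.H62.OVN.Exh
import Pool.Agent.H87.V0S.Plf

/-!
# The digits of the own jets in two scales, and parts of an event

`few_cmp`: floors in two comparable scales. `pO_eq`, `pO_up`: the own-point digits are floors of the
own jets. `rat_up`, `rat_dn`: the scales are comparable. `tr_num`, `tr_end`: entropies on an event and
on a large part of it.
-/

set_option autoImplicit false

namespace Pool.STR6

open Finset Real MvPolynomial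
open Pool.Agent.H49.Ent Pool.Agent.H32.Dense
open Pool.STK hiding pr2
open Pool.KA Pool.KSAT Pool.K2S Pool.PB Pool.S6C
open Pool.GEN Pool.CHT Pool.CHX Pool.ISO Pool.LA91 Pool.AVG71 Pool.AVG5 Pool.D2F2 Pool.AVG57
open Pool.PB.Trl (rt rt_mem t_rt)
open Pool.STR16
open Pool.STR91 (pO ch_via)

/-- **Floors in two comparable scales.** -/
theorem few_cmp {Ω V ι : Type} [Fintype Ω] [Fintype ι] {p : Ω → ℝ} (hp : IsLaw p) (x : Ω → ι → ℝ)
    {α β : ι → ℝ} {Z : Ω → V} {R : ℝ} {K : ℕ} (h0 : ∀ i, 0 ≤ α i) (h1 : ∀ i, α i ≤ R * β i)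
    (hR : 0 ≤ R) (hK : R + 1 ≤ K)
    (h : ∀ ω ω', 0 < p ω → 0 < p ω' → Z ω = Z ω' → ∀ i, ⌊β i * x ω i⌋ = ⌊β i * x ω' i⌋)
    (hβ : ∀ i, 0 ≤ β i) :
    CH p (fun ω i => ⌊α i * x ω i⌋) Z ≤ Fintype.card ι * Real.log (2 * K + 1) := by
  refine Pool.STR91.ch_near hp _ _ fun ω ω' hω hω' e i => ?_
  have e1 := fl_near1 (h ω ω' hω hω' e i)
  have e2 : |α i * x ω i - α i * x ω' i| ≤ R := by
    rw [← mul_sub, abs_mul, abs_of_nonneg (h0 i)]
    rw [← mul_sub, abs_mul, abs_of_nonneg (hβ i)] at e1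
    have e3 : α i * |x ω i - x ω' i| ≤ R * β i * |x ω i - x ω' i| :=
      mul_le_mul_of_nonneg_right (h1 i) (abs_nonneg _)
    have e4 : R * (β i * |x ω i - x ω' i|) ≤ R * 1 := mul_le_mul_of_nonneg_left e1 hR
    linarith
  have e3 := (Pool.STR91.fl_near2 e2).trans hK
  rw [← Int.cast_sub, ← Int.cast_abs] at e3
  exact_mod_cast e3

variable {m J : ℕ}

theorem rho_rt (F : Fam m J) (a : ℕ) (ω : F.Ω) : rho F a ω = rt F a ω := by
  unfold rho rt Pool.T4E.vtf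
  push_cast
  rfl

/-- **The own-point digits** are floors of the own jets. -/
theorem pO_eq {F : Fam m J} (c : ℕ → Fin m) (k : ℕ) {a : ℕ} (ha : a ≤ J)
    (H : LnT F → ℕ → MvPolynomial (Option (Fin m)) ℝ) (g : Fin 2 → ℕ) (i : ℕ) (ω : F.Ω)
    (l : Fin 2) :
    pO (pT c k a H) a g i ω l =
      ⌊2 ^ g l / ((i.factorial : ℝ) * (2 ^ a) ^ i) *
        ojet F (c (k + l)) i (H (slam F a ω) (k + l)) ω⌋ := by
  unfold pO pT oP
  rw [rho_rt, ojet_tay F ha]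
  congr 1
  ring

/-- The upper digits. -/
theorem pO_up {F : Fam m J} (c : ℕ → Fin m) (k : ℕ) {a : ℕ} (ha : a ≤ J)
    (H : LnT F → ℕ → MvPolynomial (Option (Fin m)) ℝ) (g : Fin 2 → ℕ) (i q : ℕ) (ω : F.Ω)
    (l : Fin 2) :
    pO (pT c k a H) a g i ω l / ((2 ^ q : ℕ) : ℤ) =
      ⌊2 ^ g l / ((i.factorial : ℝ) * (2 ^ a) ^ i) / 2 ^ q *
        ojet F (c (k + l)) i (H (slam F a ω) (k + l)) ω⌋ := by
  rw [pO_eq c k ha, ← Int.floor_div_natCast]
  congr 1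
  push_cast
  ring

/-- The height is the value of the own path. -/
theorem hT_eval {F : Fam m J} (c : ℕ → Fin m) (k : ℕ) {a : ℕ} (ha : a ≤ J)
    (H : LnT F → ℕ → MvPolynomial (Option (Fin m)) ℝ) (ω : F.Ω) (l : Fin 2) :
    Pool.STR16.hT c k a H ω l = (pT c k a H (slam F a ω) l).eval (rho F a ω) := by
  unfold Pool.STR16.hT pT oP
  rw [rho_rt, ← Polynomial.taylor_coeff_zero, ojet_tay F ha]
  simp

/-- The degree of the own paths. -/
theorem pT_deg {F : Fam m J} {c : ℕ → Fin m} {k a D : ℕ}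
    {H : LnT F → ℕ → MvPolynomial (Option (Fin m)) ℝ}
    (h : ∀ s, ∀ l : Fin 2, (H s (k + l)).totalDegree ≤ D) (s : LnT F) (l : Fin 2) :
    (pT c k a H s l).natDegree ≤ D + 1 := by
  unfold pT oP
  exact natDegree_dv a (G := fun s (_ : Fin m) => H s (k + l)) (fun s _ => h s l) _ s

/-! ### The scales -/

/-- The own-point scale is at most a bounded multiple of the other one. -/
theorem rat_up {g : ℕ} {y z : ℝ} {a i q : ℕ} {M : ℝ}
    (h : (g : ℝ) - q - (i : ℝ) * a ≤ y + z) (hM : z ≤ M) :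
    (2 : ℝ) ^ g / ((i.factorial : ℝ) * (2 ^ a) ^ i) / 2 ^ q ≤ 2 ^ M * 2 ^ y := by
  have f1 : (1 : ℝ) ≤ i.factorial := by exact_mod_cast Nat.one_le_iff_ne_zero.2 i.factorial_ne_zero
  have e1 : (2 : ℝ) ^ g / ((i.factorial : ℝ) * (2 ^ a) ^ i) / 2 ^ q ≤
      (2 : ℝ) ^ g / (2 ^ a) ^ i / 2 ^ q := by
    refine div_le_div_of_nonneg_right ?_ (by positivity)
    refine div_le_div_of_nonneg_left (by positivity) (by positivity) ?_
    exact le_mul_of_one_le_left (by positivity) f1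
  refine e1.trans ?_
  have e2 : (2 : ℝ) ^ g / (2 ^ a) ^ i / 2 ^ q = (2 : ℝ) ^ ((g : ℝ) - (i : ℝ) * a - q) := by
    rw [Real.rpow_sub (by norm_num), Real.rpow_sub (by norm_num), Real.rpow_natCast,
      Real.rpow_natCast, ← pow_mul]
    congr 2
    rw [mul_comm a i, ← Real.rpow_natCast]
    push_cast
    rfl
  rw [e2, ← Real.rpow_add (by norm_num)]
  refine Real.rpow_le_rpow_of_exponent_le (by norm_num) ?_
  linarith

/-- The other scale is at most a bounded multiple of the own-point one. -/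
theorem rat_dn {g : ℕ} {y z : ℝ} {a i q : ℕ} {M : ℝ}
    (h : y - z ≤ (g : ℝ) - q - (i : ℝ) * a) (hM : z ≤ M) :
    (2 : ℝ) ^ y ≤ (i.factorial : ℝ) * 2 ^ M *
      ((2 : ℝ) ^ g / ((i.factorial : ℝ) * (2 ^ a) ^ i) / 2 ^ q) := by
  have f1 : (0 : ℝ) < i.factorial := by exact_mod_cast i.factorial_pos
  have e1 : (i.factorial : ℝ) * 2 ^ M *
      ((2 : ℝ) ^ g / ((i.factorial : ℝ) * (2 ^ a) ^ i) / 2 ^ q) =
      2 ^ M * ((2 : ℝ) ^ g / (2 ^ a) ^ i / 2 ^ q) := by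
    field_simp
  rw [e1]
  have e2 : (2 : ℝ) ^ g / (2 ^ a) ^ i / 2 ^ q = (2 : ℝ) ^ ((g : ℝ) - (i : ℝ) * a - q) := by
    rw [Real.rpow_sub (by norm_num), Real.rpow_sub (by norm_num), Real.rpow_natCast,
      Real.rpow_natCast, ← pow_mul]
    congr 2
    rw [mul_comm a i, ← Real.rpow_natCast]
    push_cast
    rfl
  rw [e2, ← Real.rpow_add (by norm_num)]
  refine Real.rpow_le_rpow_of_exponent_le (by norm_num) ?_
  linarith

/-! ### Parts of an event -/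

section

variable {Ω O' O P' Pc Za Zb : Type} [Fintype Ω] {P : Ω → ℝ}

/-- The mass of the rest. -/
theorem Pe_rest {P : Ω → ℝ} {A B : Ω → Prop} (hs : Sub B A) :
    Pe P A = Pe P B + Pe P (fun ω => A ω ∧ ¬ B ω) := by
  classical
  rw [Pe_eq, Pe_eq, Pe_eq, ← Finset.sum_add_distrib]
  refine Finset.sum_congr rfl fun ω _ => ?_
  by_cases h8 : A ω
  · by_cases h9 : B ω <;> simp [h8, h9]
  · have h9 : ¬ B ω := fun h => h8 (hs ω h)
    simp [h8, h9]

/-- From the event to a part. -/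
theorem part_dn (hP : IsLaw P) {A B : Ω → Prop} (hs : Sub B A) (hA : 0 < Pe P A) {ϖ M : ℝ}
    (h0 : 0 ≤ ϖ) (h1 : ϖ ≤ 1 / 2) (hB : (1 - ϖ) * Pe P A ≤ Pe P B) (X : Ω → O') (Y : Ω → O)
    (hM : CH (Pool.Agent.H49.Ent.cond P B True) X Y ≤ M) :
    CH (Pool.Agent.H49.Ent.cond P B True) X Y ≤
      CH (Pool.Agent.H49.Ent.cond P A True) X Y + ϖ * M := by
  have hPB : 0 < Pe P B := lt_of_lt_of_le (mul_pos (by linarith) hA) hB
  have e1 := Piece.CH_sub hP hs hA X Y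
  have e0 := CH_nonneg (isLaw_cond hP hPB).nonneg X Y
  have e2 : (1 - ϖ) * Pe P A * CH (Pool.Agent.H49.Ent.cond P B True) X Y ≤
      Pe P A * CH (Pool.Agent.H49.Ent.cond P A True) X Y :=
    (mul_le_mul_of_nonneg_right hB e0).trans e1
  have e3 : Pe P A * ((1 - ϖ) * CH (Pool.Agent.H49.Ent.cond P B True) X Y) ≤
      Pe P A * CH (Pool.Agent.H49.Ent.cond P A True) X Y := by
    calc _ = (1 - ϖ) * Pe P A * CH (Pool.Agent.H49.Ent.cond P B True) X Y := by ring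
      _ ≤ _ := e2
  have e4 := le_of_mul_le_mul_left e3 hA
  have e5 := mul_le_mul_of_nonneg_left hM h0
  linarith

/-- From a part to the event. -/
theorem part_up (hP : IsLaw P) {A B : Ω → Prop} (hs : Sub B A) (hA : 0 < Pe P A) {ϖ M : ℝ}
    (h1 : ϖ ≤ 1 / 2) (hB : (1 - ϖ) * Pe P A ≤ Pe P B) (X : Ω → O') (Y : Ω → O)
    (hM : ∀ E : Ω → Prop, 0 < Pe P E → CH (Pool.Agent.H49.Ent.cond P E True) X Y ≤ M) :
    CH (Pool.Agent.H49.Ent.cond P A True) X Y ≤ Real.log 2 +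
      CH (Pool.Agent.H49.Ent.cond P B True) X Y + ϖ * M := by
  have hPB : 0 < Pe P B := lt_of_lt_of_le (mul_pos (by linarith) hA) hB
  have e1 := Pool.OVN.CH_split hP hs hA X Y
  have e0 := CH_nonneg (isLaw_cond hP hPB).nonneg X Y
  have e2 := Pe_rest (P := P) hs
  have e3 : 0 ≤ Pe P (fun ω => A ω ∧ ¬ B ω) := Pe_nonneg hP _
  have e4 : Pe P (fun ω => A ω ∧ ¬ B ω) * CH (Pool.Agent.H49.Ent.cond P (fun ω => A ω ∧ ¬ B ω) True)
      X Y ≤ Pe P (fun ω => A ω ∧ ¬ B ω) * M := by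
    rcases eq_or_lt_of_le e3 with h | h
    · rw [← h, zero_mul, zero_mul]
    · exact mul_le_mul_of_nonneg_left (hM _ h) e3
  have hM0 : 0 ≤ M := (CH_nonneg (isLaw_cond hP hPB).nonneg X Y).trans (hM B hPB)
  have e5 : Pe P (fun ω => A ω ∧ ¬ B ω) * M ≤ ϖ * Pe P A * M :=
    mul_le_mul_of_nonneg_right (by linarith) hM0
  have e6 : Pe P B * CH (Pool.Agent.H49.Ent.cond P B True) X Y ≤
      Pe P A * CH (Pool.Agent.H49.Ent.cond P B True) X Y :=
    mul_le_mul_of_nonneg_right (by linarith) e0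
  have e7 : Pe P A * CH (Pool.Agent.H49.Ent.cond P A True) X Y ≤
      Pe P A * (Real.log 2 + CH (Pool.Agent.H49.Ent.cond P B True) X Y + ϖ * M) := by
    calc _ ≤ Pe P A * Real.log 2 + Pe P A * CH (Pool.Agent.H49.Ent.cond P B True) X Y +
          ϖ * Pe P A * M := by linarith
      _ = _ := by ring
  exact le_of_mul_le_mul_left e7 hA

/-- **The number on a part**, in the other codes. -/
theorem tr_num (hP : IsLaw P) {A B : Ω → Prop} (hs : Sub B A) (hA : 0 < Pe P A) {ϖ M c e : ℝ}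
    (h0 : 0 ≤ ϖ) (h1 : ϖ ≤ 1 / 2) (hB : (1 - ϖ) * Pe P A ≤ Pe P B) {o' : Ω → O'} {o : Ω → O}
    {p' : Ω → P'} {pc : Ω → Pc} {za : Ω → Za} {zb : Ω → Zb}
    (c1 : CH (Pool.Agent.H49.Ent.cond P B True) p' o' ≤ c)
    (c2 : CH (Pool.Agent.H49.Ent.cond P B True) o' p' ≤ c)
    (c3 : CH (Pool.Agent.H49.Ent.cond P B True) o pc ≤ c)
    (c4 : CH (Pool.Agent.H49.Ent.cond P B True) pc o ≤ c)
    (hM : ∀ E : Ω → Prop, 0 < Pe P E → CH (Pool.Agent.H49.Ent.cond P E True) o' o ≤ M)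
    (num : CH (Pool.Agent.H49.Ent.cond P A True) o' (fun ω => (o ω, za ω)) ≤
      CH (Pool.Agent.H49.Ent.cond P A True) o' (fun ω => (o ω, zb ω)) + e) :
    CH (Pool.Agent.H49.Ent.cond P B True) p' (fun ω => (pc ω, za ω)) ≤
      CH (Pool.Agent.H49.Ent.cond P B True) p' (fun ω => (pc ω, zb ω)) +
        (e + 2 * (ϖ * M) + 4 * c + Real.log 2) := by
  have hPB : 0 < Pe P B := lt_of_lt_of_le (mul_pos (by linarith) hA) hB
  have b0 := (isLaw_cond hP hPB).nonneg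
  have s1 := ch_via b0 p' o' (fun ω => (pc ω, za ω)) (c := CH (Pool.Agent.H49.Ent.cond P B True)
    o' (fun ω => (pc ω, za ω))) le_rfl
  have s2 : CH (Pool.Agent.H49.Ent.cond P B True) p' (fun ω => (o' ω, (pc ω, za ω))) ≤ c :=
    (CH_mono_cond b0 fun _ _ _ _ h => (Prod.ext_iff.1 h).1).trans c1
  have s3 := ch_via b0 o' o (fun ω => (pc ω, za ω)) (c := c)
    ((CH_mono_cond b0 fun _ _ _ _ h => (Prod.ext_iff.1 h).1).trans c3)
  have s4 : CH (Pool.Agent.H49.Ent.cond P B True) o' (fun ω => (o ω, (pc ω, za ω))) ≤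
      CH (Pool.Agent.H49.Ent.cond P B True) o' (fun ω => (o ω, za ω)) :=
    CH_mono_cond b0 fun ω ω' _ _ h => by
      simp only [Prod.mk.injEq] at h ⊢
      exact ⟨h.1, h.2.2⟩
  have s5 := part_dn hP hs hA h0 h1 hB o' (fun ω => (o ω, za ω)) (M := M)
    ((CH_mono_cond b0 fun _ _ _ _ h => (Prod.ext_iff.1 h).1).trans (hM B hPB))
  have s6 := part_up hP hs hA h1 hB o' (fun ω => (o ω, zb ω)) (M := M) fun E hE =>
    (CH_mono_cond (isLaw_cond hP hE).nonneg fun _ _ _ _ h => (Prod.ext_iff.1 h).1).trans (hM E hE)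
  have s7 := ch_via b0 o' p' (fun ω => (o ω, zb ω)) (c := CH (Pool.Agent.H49.Ent.cond P B True)
    p' (fun ω => (o ω, zb ω))) le_rfl
  have s8 : CH (Pool.Agent.H49.Ent.cond P B True) o' (fun ω => (p' ω, (o ω, zb ω))) ≤ c :=
    (CH_mono_cond b0 fun _ _ _ _ h => (Prod.ext_iff.1 h).1).trans c2
  have s9 := ch_via b0 p' pc (fun ω => (o ω, zb ω)) (c := c)
    ((CH_mono_cond b0 fun _ _ _ _ h => (Prod.ext_iff.1 h).1).trans c4)
  have s10 : CH (Pool.Agent.H49.Ent.cond P B True) p' (fun ω => (pc ω, (o ω, zb ω))) ≤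
      CH (Pool.Agent.H49.Ent.cond P B True) p' (fun ω => (pc ω, zb ω)) :=
    CH_mono_cond b0 fun ω ω' _ _ h => by
      simp only [Prod.mk.injEq] at h ⊢
      exact ⟨h.1, h.2.2⟩
  linarith

/-- **The conclusion on the event.** -/
theorem tr_end (hP : IsLaw P) {A B : Ω → Prop} (hs : Sub B A) (hA : 0 < Pe P A) {ϖ M c e₀ e₁ : ℝ}
    (h1 : ϖ ≤ 1 / 2) (hB : (1 - ϖ) * Pe P A ≤ Pe P B) {o' : Ω → O'} {o : Ω → O}
    {p' : Ω → P'} {zb : Ω → Zb}
    (c2 : CH (Pool.Agent.H49.Ent.cond P B True) o' p' ≤ c)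
    (hM : ∀ E : Ω → Prop, 0 < Pe P E → CH (Pool.Agent.H49.Ent.cond P E True) o' o ≤ M)
    (up : CH (Pool.Agent.H49.Ent.cond P A True) o zb ≤ e₀)
    (lw : CH (Pool.Agent.H49.Ent.cond P B True) p' zb ≤ e₁) :
    CH (Pool.Agent.H49.Ent.cond P A True) o' zb ≤ e₀ + e₁ + ϖ * M + c + Real.log 2 := by
  have hPB : 0 < Pe P B := lt_of_lt_of_le (mul_pos (by linarith) hA) hB
  have a0 := (isLaw_cond hP hA).nonneg
  have b0 := (isLaw_cond hP hPB).nonneg
  have s1 := ch_via a0 o' o zb up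
  have s2 := part_up hP hs hA h1 hB o' (fun ω => (o ω, zb ω)) (M := M) fun E hE =>
    (CH_mono_cond (isLaw_cond hP hE).nonneg fun _ _ _ _ h => (Prod.ext_iff.1 h).1).trans (hM E hE)
  have s3 : CH (Pool.Agent.H49.Ent.cond P B True) o' (fun ω => (o ω, zb ω)) ≤
      CH (Pool.Agent.H49.Ent.cond P B True) o' zb :=
    CH_mono_cond b0 fun _ _ _ _ h => (Prod.ext_iff.1 h).2
  have s4 := ch_via b0 o' p' zb lw
  have s5 : CH (Pool.Agent.H49.Ent.cond P B True) o' (fun ω => (p' ω, zb ω)) ≤ c :=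
    (CH_mono_cond b0 fun _ _ _ _ h => (Prod.ext_iff.1 h).1).trans c2
  linarith

end

end Pool.STR6
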