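import Pool.Agent.H6.STR.Cmp
import Pool.Agent.H4.T4.Frd
import Pool.Agent.H60.V0B.Rl

/-!
# Codes of one event of the star

`vcd_of`: the codes of the side path with fewer digits. `za_ex`: the record as a function of the
line. `p_of_o`, `o_of_p`: the own-point digits and the digits of the own jets. `o_dig`: the digits
between two levels.
-/

set_option autoImplicit false

namespace Pool.STR6

open Finset Real MvPolynomial
open Pool.Agent.H49.Ent Pool.Agent.H32.Dense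
open Pool.STK hiding pr2
open Pool.KA Pool.KSAT Pool.K2S Pool.PB Pool.S6C
open Pool.GEN Pool.CHT Pool.CHX Pool.ISO Pool.LA91 Pool.AVG71 Pool.AVG5 Pool.D2F2 Pool.AVG57
open Pool.RCD Pool.V0F
open Pool.PB.Trl (rt rt_mem t_rt)
open Pool.STR16
open Pool.STR91 (pO ch_via stc)

variable {m J : ℕ}

/-- Fewer digits. -/
theorem fl_less {x y : ℝ} {n N : ℕ} (h : n ≤ N) (e : ⌊(2 : ℝ) ^ N * x⌋ = ⌊(2 : ℝ) ^ N * y⌋) :
    ⌊(2 : ℝ) ^ n * x⌋ = ⌊(2 : ℝ) ^ n * y⌋ := by
  have key : ∀ z : ℝ, ⌊(2 : ℝ) ^ n * z⌋ = ⌊(2 : ℝ) ^ N * z⌋ / ((2 ^ (N - n) : ℕ) : ℤ) := by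
    intro z
    rw [← Int.floor_div_natCast]
    congr 1
    obtain ⟨d, rfl⟩ := Nat.exists_eq_add_of_le h
    rw [Nat.add_sub_cancel_left, pow_add]
    push_cast
    field_simp
  rw [key x, key y, e]

/-- **The codes of the side path** with fewer digits. -/
theorem vcd_of {F : Fam m J} {c : ℕ → Fin m} {k b a D : ℕ} {N : Fin k → ℕ} {G : Fin k → ℕ → ℕ}
    (hN : ∀ l i, N l ≤ G l i) {Hb : LnT F → ℕ → MvPolynomial (Option (Fin m)) ℝ} {s s' : LnT F}
    (h : vcG c k b a D G Hb s = vcG c k b a D G Hb s') :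
    vcd c k b a D N Hb s = vcd c k b a D N Hb s' := by
  funext x
  exact fl_less (hN x.1 x.2) (congrFun h x)

/-- **The record** as a function of the line with its window. -/
theorem za_ex (F : Fam m J) (A : F.Ω → Prop) (a : ℝ) :
    ∃ za : LnT F → {D : F.Ω → Prop // Cl2 (ptr F J) (vg a J F) A D} → Prop,
      ∀ ω, A ω → za (slam F ⌊a * J⌋₊ ω) = cR F A a ω := by
  classical
  refine ⟨fun s => if h : ∃ ω, A ω ∧ slam F ⌊a * J⌋₊ ω = s then cR F A a h.choose else
    fun _ => True, fun ω hω => ?_⟩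
  have h : ∃ ω', A ω' ∧ slam F ⌊a * J⌋₊ ω' = slam F ⌊a * J⌋₊ ω := ⟨ω, hω, rfl⟩
  dsimp only
  rw [dif_pos h]
  exact Pool.T4J.cR_ln h.choose_spec.1 hω h.choose_spec.2

/-- The number of values. -/
noncomputable def Kb (d : ℕ) : ℕ := d.factorial * 2 ^ (d + 4) + 1

/-- The number of bits. -/
noncomputable def cb (d : ℕ) : ℝ := 2 * Real.log (2 * (Kb d : ℕ) + 1)

theorem cb_nonneg (d : ℕ) : 0 ≤ cb d := by
  unfold cb
  have : 0 ≤ Real.log (2 * (Kb d : ℕ) + 1) := Real.log_nonneg (by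
    have : (0 : ℝ) ≤ ((Kb d : ℕ) : ℝ) := Nat.cast_nonneg _
    linarith)
  linarith

section

variable {F : Fam m J} {c : ℕ → Fin m} {k a d : ℕ}
  {H : LnT F → ℕ → MvPolynomial (Option (Fin m)) ℝ} {g : Fin 2 → ℕ} {p : F.Ω → ℝ} {V : Type}
  {Z : F.Ω → V} {i q : ℕ} {N : ℕ → ℝ}

/-- **The own-point digits** given the digits of the own jets. -/
theorem up_of_o (hp : IsLaw p) (ha : a ≤ J) (hi : i ≤ d)
    (hg : ∀ l : Fin 2, |(g l : ℝ) - q - i * a - N l * J| ≤ i + 4)
    (hZ : ∀ ω ω', 0 < p ω → 0 < p ω' → Z ω = Z ω' → oJ c k a i H N ω = oJ c k a i H N ω') :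
    CH p (fun ω l => pO (pT c k a H) a g i ω l / ((2 ^ q : ℕ) : ℤ)) Z ≤ cb d := by
  have hid : (i : ℝ) ≤ d := by exact_mod_cast hi
  have f1 : (1 : ℝ) ≤ d.factorial := by
    exact_mod_cast Nat.one_le_iff_ne_zero.2 d.factorial_ne_zero
  have h1 := few_cmp (ι := Fin 2) (p := p) hp
    (fun ω l => ojet F (c (k + l)) i (H (slam F a ω) (k + l)) ω)
    (α := fun l => (2 : ℝ) ^ g l / ((i.factorial : ℝ) * (2 ^ a) ^ i) / 2 ^ q)
    (β := fun l => (2 : ℝ) ^ (N l * J)) (Z := Z) (R := 2 ^ (d + 4)) (K := Kb d)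
    (fun l => by positivity) (fun l => by
      have h2 := (abs_le.1 (hg l)).2
      have h3 := rat_up (g := g l) (y := N l * J) (z := i + 4) (a := a) (i := i) (q := q)
        (M := d + 4) (by linarith) (by linarith)
      have e1 : (2 : ℝ) ^ ((d : ℝ) + 4) = 2 ^ (d + 4) := by
        rw [← Real.rpow_natCast]
        push_cast
        rfl
      rwa [e1] at h3) (by positivity) (by
      unfold Kb
      push_cast
      have : (1 : ℝ) * 2 ^ (d + 4) ≤ d.factorial * 2 ^ (d + 4) :=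
        mul_le_mul_of_nonneg_right f1 (by positivity)
      linarith) (fun ω ω' hω hω' e l => congrFun (hZ ω ω' hω hω' e) l)
    (fun l => by positivity)
  have e2 : (fun ω l => pO (pT c k a H) a g i ω l / ((2 ^ q : ℕ) : ℤ)) = fun ω (l : Fin 2) =>
      ⌊(2 : ℝ) ^ g l / ((i.factorial : ℝ) * (2 ^ a) ^ i) / 2 ^ q *
        ojet F (c (k + l)) i (H (slam F a ω) (k + l)) ω⌋ := by
    funext ω l
    exact pO_up c k ha H g i q ω l
  rw [e2]
  refine h1.trans (le_of_eq ?_)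
  unfold cb
  rw [Fintype.card_fin]
  norm_num

/-- **The digits of the own jets** given the own-point digits. -/
theorem o_of_up (hp : IsLaw p) (ha : a ≤ J) (hi : i ≤ d)
    (hg : ∀ l : Fin 2, |(g l : ℝ) - q - i * a - N l * J| ≤ i + 4)
    (hZ : ∀ ω ω', 0 < p ω → 0 < p ω' → Z ω = Z ω' → ∀ l,
      pO (pT c k a H) a g i ω l / ((2 ^ q : ℕ) : ℤ) =
        pO (pT c k a H) a g i ω' l / ((2 ^ q : ℕ) : ℤ)) :
    CH p (oJ c k a i H N) Z ≤ cb d := by
  have hid : (i : ℝ) ≤ d := by exact_mod_cast hi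
  have f0 : (0 : ℝ) < i.factorial := by exact_mod_cast i.factorial_pos
  have f1 : (i.factorial : ℝ) ≤ d.factorial := by exact_mod_cast Nat.factorial_le hi
  have h1 := few_cmp (ι := Fin 2) (p := p) hp
    (fun ω l => ojet F (c (k + l)) i (H (slam F a ω) (k + l)) ω)
    (β := fun l => (2 : ℝ) ^ g l / ((i.factorial : ℝ) * (2 ^ a) ^ i) / 2 ^ q)
    (α := fun l => (2 : ℝ) ^ (N l * J)) (Z := Z) (R := d.factorial * 2 ^ (d + 4)) (K := Kb d)
    (fun l => by positivity) (fun l => by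
      have h2 := (abs_le.1 (hg l)).1
      have h3 := rat_dn (g := g l) (y := N l * J) (z := i + 4) (a := a) (i := i) (q := q)
        (M := d + 4) (by linarith) (by linarith)
      have e1 : (2 : ℝ) ^ ((d : ℝ) + 4) = 2 ^ (d + 4) := by
        rw [← Real.rpow_natCast]
        push_cast
        rfl
      rw [e1] at h3
      refine h3.trans (mul_le_mul_of_nonneg_right ?_ (by positivity))
      exact mul_le_mul_of_nonneg_right f1 (by positivity)) (by positivity) (by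
      unfold Kb
      push_cast
      linarith) (fun ω ω' hω hω' e l => by
        have := hZ ω ω' hω hω' e l
        rwa [pO_up c k ha, pO_up c k ha] at this)
    (fun l => by positivity)
  have e2 : oJ c k a i H N = fun ω (l : Fin 2) =>
      ⌊(2 : ℝ) ^ (N l * J) * ojet F (c (k + l)) i (H (slam F a ω) (k + l)) ω⌋ := rfl
  rw [e2]
  refine h1.trans (le_of_eq ?_)
  unfold cb
  rw [Fintype.card_fin]
  norm_num

/-- The same without upper digits. -/
theorem p_of_o (hp : IsLaw p) (ha : a ≤ J) (hi : i ≤ d)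
    (hg : ∀ l : Fin 2, |(g l : ℝ) - i * a - N l * J| ≤ i + 4)
    (hZ : ∀ ω ω', 0 < p ω → 0 < p ω' → Z ω = Z ω' → oJ c k a i H N ω = oJ c k a i H N ω') :
    CH p (pO (pT c k a H) a g i) Z ≤ cb d := by
  have h1 := up_of_o (q := 0) (g := g) hp ha hi (fun l => by
    rw [Nat.cast_zero, sub_zero]
    exact hg l) hZ
  refine (CH_mono_left hp.nonneg fun ω ω' _ _ e => ?_).trans h1
  have e1 := (Prod.ext_iff.1 e).1
  funext l
  have e2 := congrFun e1 l
  simpa using e2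

theorem o_of_p (hp : IsLaw p) (ha : a ≤ J) (hi : i ≤ d)
    (hg : ∀ l : Fin 2, |(g l : ℝ) - i * a - N l * J| ≤ i + 4)
    (hZ : ∀ ω ω', 0 < p ω → 0 < p ω' → Z ω = Z ω' →
      pO (pT c k a H) a g i ω = pO (pT c k a H) a g i ω') :
    CH p (oJ c k a i H N) Z ≤ cb d :=
  o_of_up (q := 0) (g := g) hp ha hi (fun l => by
    rw [Nat.cast_zero, sub_zero]
    exact hg l) fun ω ω' hω hω' e l => by rw [hZ ω ω' hω hω' e]

/-- **The digits between two levels.** -/
theorem o_dig {N' : ℕ → ℝ} (hp : IsLaw p) (hN : ∀ l : Fin 2, N' l * J ≤ N l * J + (q + 1)) :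
    CH p (oJ c k a i H N') (oJ c k a i H N) ≤ 2 * ((q : ℝ) + 3) * Real.log 2 := by
  have h1 := few_cmp (ι := Fin 2) (p := p) hp
    (fun ω l => ojet F (c (k + l)) i (H (slam F a ω) (k + l)) ω)
    (α := fun l => (2 : ℝ) ^ (N' l * J))
    (β := fun l => (2 : ℝ) ^ (N l * J)) (Z := oJ c k a i H N) (R := 2 ^ (q + 1))
    (K := 2 ^ (q + 1) + 1) (fun l => by positivity) (fun l => by
      have e1 : (2 : ℝ) ^ (q + 1) = 2 ^ ((q : ℝ) + 1) := by
        rw [← Real.rpow_natCast]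
        push_cast
        rfl
      rw [e1, ← Real.rpow_add (by norm_num)]
      refine Real.rpow_le_rpow_of_exponent_le (by norm_num) ?_
      linarith [hN l]) (by positivity) (by push_cast; linarith)
    (fun ω ω' hω hω' e l => congrFun e l) (fun l => by positivity)
  have e2 : oJ c k a i H N' = fun ω (l : Fin 2) =>
      ⌊(2 : ℝ) ^ (N' l * J) * ojet F (c (k + l)) i (H (slam F a ω) (k + l)) ω⌋ := rfl
  rw [e2]
  refine h1.trans ?_
  rw [Fintype.card_fin]
  have e3 : (2 : ℝ) * ((2 ^ (q + 1) + 1 : ℕ) : ℝ) + 1 ≤ 2 ^ (q + 3) := by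
    push_cast
    have e4 : (1 : ℝ) ≤ 2 ^ q := one_le_pow₀ (by norm_num)
    rw [pow_succ, pow_add]
    norm_num
    linarith
  have e5 : (0 : ℝ) < 2 * ((2 ^ (q + 1) + 1 : ℕ) : ℝ) + 1 := by positivity
  have e6 := Real.log_le_log e5 e3
  rw [Real.log_pow] at e6
  push_cast at e6 ⊢
  linarith

end

end Pool.STR6
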