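import Pool.Agent.H6.STR.Ev
import Pool.Agent.H83.OWN.AddC
import Pool.Agent.H45.EXA.Nbc

/-!
# One step of the star

`star_of`: `StarStmt` from the codes of the side path (`CyStmt`), the rows (`RwStmt`) and the images
(`FiStmt`), by the star in own-point codes.
-/

set_option autoImplicit false

namespace Pool.STR6

open Finset Real MvPolynomial
open Pool.Agent.H49.Ent Pool.Agent.H32.Dense
open Pool.STK hiding pr2
open Pool.KA Pool.KSAT Pool.K2S Pool.PB Pool.S6C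
open Pool.GEN Pool.CHT Pool.CHX Pool.ISO Pool.LA91 Pool.AVG71 Pool.AVG5 Pool.D2F2 Pool.AVG57
open Pool.RCD Pool.V0F Pool.V0Q Pool.V0T
open Pool.T4C72 (BoxT)
open Pool.STR16
open Pool.STR91 (pO ch_via stc)

/-- **One step of the star.** -/
theorem star_of {k : ℕ} (hC : CyStmt k) (hR : RwStmt k) (hF : FiStmt k) {h s : ℝ} (h0 : 0 < h)
    (h1 : h ≤ 1) (hs : 1 ≤ s) : StarStmt k h s := by
  intro j D₁ hj _ δ hδ
  obtain ⟨CR, hCR, HR⟩ := hR
  obtain ⟨CF, hCF, HF⟩ := hF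
  obtain ⟨a₁, κ₁, ϖ₁, ha₁, hκ₁, hϖ₁, X₀, HS⟩ := Pool.STR91.star_law (h := h) (δ := δ / 4) (j := j)
    h0 h1 hj (by positivity) (D₁ + 1)
  obtain ⟨ϖ, hϖe⟩ : ∃ ϖ : ℝ, ϖ = min (min ϖ₁ (1 / 4)) (min (κ₁ / 64) (δ / 64)) := ⟨_, rfl⟩
  have w0 : 0 < ϖ := by
    rw [hϖe]
    exact lt_min (lt_min hϖ₁ (by norm_num)) (lt_min (by positivity) (by positivity))
  have w1 : ϖ ≤ ϖ₁ := by rw [hϖe]; exact (min_le_left _ _).trans (min_le_left _ _)
  have w2 : ϖ ≤ 1 / 4 := by rw [hϖe]; exact (min_le_left _ _).trans (min_le_right _ _)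
  have w3 : ϖ ≤ κ₁ / 64 := by rw [hϖe]; exact (min_le_right _ _).trans (min_le_left _ _)
  have w4 : ϖ ≤ δ / 64 := by rw [hϖe]; exact (min_le_right _ _).trans (min_le_right _ _)
  obtain ⟨κ₀, hκ₀e⟩ : ∃ κ₀ : ℝ, κ₀ = min (κ₁ / (16 * CF)) (δ / 16) := ⟨_, rfl⟩
  have hCF0 : 0 < CF := by linarith
  have q0 : 0 < κ₀ := by rw [hκ₀e]; exact lt_min (by positivity) (by positivity)
  have q1 : CF * κ₀ ≤ κ₁ / 16 := by
    have e1 : κ₀ ≤ κ₁ / (16 * CF) := by rw [hκ₀e]; exact min_le_left _ _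
    rw [le_div_iff₀ (by positivity)] at e1
    linarith
  have q1' : κ₀ ≤ κ₁ / 16 := by
    have e1 : 1 * κ₀ ≤ CF * κ₀ := mul_le_mul_of_nonneg_right hCF q0.le
    linarith
  have q2 : κ₀ ≤ δ / 16 := by rw [hκ₀e]; exact min_le_right _ _
  refine ⟨κ₀, CR + CF + 2, q0, by linarith, ?_⟩
  intro m D S c sn sp G b o w u Λ φ' e φ lam hB hφ a x x' X X' Ec R e₀ ρ₀ κ room N haG hwa hxG hax
    hxw hX0 hXX hCφ hκ hκ0 hΛ hab hRo hro hx'G hax' hx'w hx'sn hN hImN hImU hrn
  have L := hB.lad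
  have f0 : 0 < φ' := L.φ0
  have f1 : 0 < φ := lt_of_lt_of_le f0 hφ
  have u0 := hB.u0
  have cφ : (CR + CF + 2) * φ = CR * φ + CF * φ + 2 * φ := by ring
  have cu : (CR + CF + 2) * u = CR * u + CF * u + 2 * u := by ring
  have p1 : 0 ≤ CR * φ := by positivity
  have p2 : 0 ≤ CF * φ := by positivity
  have p3 : 0 ≤ CR * u := by positivity
  have p4 : 0 ≤ CF * u := by positivity
  have sw : 0 ≤ s * (a - w) := mul_nonneg (by linarith) (by linarith)
  rw [cφ] at hCφ hΛ hab hRo hro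
  rw [cu] at hΛ hab
  simp only [cφ] at hx'sn hN
  have lu : 0 ≤ Λ * u := by linarith
  have ba : b ≤ a := by linarith [hB.bw]
  have ao : a ≤ o := by linarith [hB.wo]
  have a0 : 0 ≤ a := by linarith [hB.b0]
  have a1 : a ≤ 1 := by linarith [hB.o1]
  have x1 : x ≤ 1 := by linarith [hB.o1, hB.wo]
  have x'o : x' ≤ o := by linarith [hB.wo]
  have d0 : 0 < X' - X := by linarith
  have st : ∀ l, k ≤ l → l ≤ k + 1 → Λ * u - φ' ≤ sn l a := fun l l1 l2 => by
    have e1 := L.st l l1 l2 b L.bG a haG le_rfl ba ao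
    have e2 := (hB.room l l2).1
    linarith
  have sup : ∀ l, k ≤ l → l ≤ k + 1 → sn l x' ≤ 1 - Λ * u + φ' := fun l l1 l2 => by
    have e1 := L.st l l1 l2 x' hx'G o L.oG (by linarith) x'o le_rfl
    have e2 := (hB.room l l2).2
    linarith
  have fl : ∀ l < k, Λ * u - 2 * φ' ≤ sn l a ∧ sn l a ≤ 1 - Λ * u + φ' := fun l hl => by
    have e1 := abs_le.1 (L.fl l hl a haG ba ao)
    have e2 := abs_le.1 (L.fl l hl b L.bG le_rfl (ba.trans ao))
    have e3 := hB.room l (by omega)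
    constructor <;> linarith [e1.1, e1.2, e2.1, e2.2, e3.1, e3.2]
  have BR := HR (D₁ := D₁) hB hs hφ (a := a) (X := X) (X' := X') (Ec := Ec) (R := R)
    (ε := κ₁ / 8 * (X' - X)) (ϖ := ϖ) haG hwa hX0 hXX (by linarith) (by linarith) (by linarith)
    (by positivity) w0 hrn
  have s0 := hx'sn 0 (by norm_num)
  have s1 := hx'sn 1 le_rfl
  have BF := HF (D := D₁) L hφ (a := a) (X := X) (X' := X') (x' := x') (Ec := Ec) (R := R)
    (e₀ := e₀) (ρ₀ := ρ₀) (κ := κ) (room := room) haG ba hX0 hXX hx'G hax' x'o hκ0 (by linarith)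
    (fun l hl => by linarith [hx'sn l hl])
    (by
      have e1 := sup k le_rfl (by omega)
      have e2 : sn (k + 0) a = sn k a := rfl
      have e3 : sn (k + 0) x' = sn k x' := rfl
      linarith)
    (by
      have e1 := sup (k + 1) (by omega) le_rfl
      linarith) (by linarith [hB.o1])
    (fun l hl => by linarith [(fl l hl).2]) hImN hImU (η := κ₁ / 16 * (X' - X)) (ϖ := ϖ₁)
    (by positivity) hϖ₁ a₁ ha₁
  obtain ⟨C₀, htm⟩ := L.tm
  have BT := Pool.OWN83.bas_ev (Pool.GRW.tmc_bas htm (ψ := κ₁ / 4 * (X' - X)) (by positivity))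
    (c := 1 / 2) (by norm_num)
  obtain ⟨K, hK0, HK⟩ := hC D₁ Ec
  obtain ⟨J₀, hJ₀⟩ := HK (m := m) (b := b) (a := a) (φ := φ) (ρ := φ) (sn := sn) (c := c) (N := N)
    L.b0 ba a1 f1 (fun l hl => by
      obtain ⟨e1, e2, e3⟩ := hN l hl
      refine ⟨?_, e2, e3⟩
      linarith [(fl l hl).1])
  obtain ⟨cB, hcB⟩ : ∃ cB : ℝ, cB = cb (D₁ + 1 + j) := ⟨_, rfl⟩
  have cB0 : 0 ≤ cB := by rw [hcB]; exact cb_nonneg _
  obtain ⟨T, hT⟩ : ∃ T : ℝ, T = X₀ + 4 + 8 / κ₁ * (κ₁ + 4 * cB + 1 + K) +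
    4 / δ * (cB + 1 + δ) := ⟨_, rfl⟩
  obtain ⟨J₂, hJ₂⟩ := exists_nat_ge (T / (X' - X))
  refine Bas.mono (max J₀ J₂) (BR.and (BF.and (BT.and (pos_bas L.pos)))) ?_
  rintro J hJ F A ⟨GR, GF, GT, hA⟩ Hb H hSt hOk y1 y2 y3 y4
  have hJ0 : (0 : ℝ) ≤ J := Nat.cast_nonneg J
  -- the numbers
  obtain ⟨v, hv⟩ : ∃ v : ℝ, v = (X' - X) * J := ⟨_, rfl⟩
  have tx : T ≤ v := by
    have e1 : (J₂ : ℝ) ≤ J := by exact_mod_cast (le_max_right _ _).trans hJ
    have e2 := hJ₂.trans e1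
    rw [div_le_iff₀ d0] at e2
    rw [hv]
    linarith
  have t1 : 0 ≤ 8 / κ₁ * (κ₁ + 4 * cB + 1 + K) := by positivity
  have t2 : 0 ≤ 4 / δ * (cB + 1 + δ) := by positivity
  have X00 : (0 : ℝ) ≤ X₀ := Nat.cast_nonneg _
  have n1 : 8 * (κ₁ + 4 * cB + 1 + K) ≤ κ₁ * v := by
    have e1 : 8 / κ₁ * (κ₁ + 4 * cB + 1 + K) ≤ v := by linarith
    have e2 := mul_le_mul_of_nonneg_left e1 hκ₁.le
    have e3 : κ₁ * (8 / κ₁ * (κ₁ + 4 * cB + 1 + K)) = 8 * (κ₁ + 4 * cB + 1 + K) := by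
      field_simp
    linarith
  have n2 : 4 * (cB + 1 + δ) ≤ δ * v := by
    have e1 : 4 / δ * (cB + 1 + δ) ≤ v := by linarith
    have e2 := mul_le_mul_of_nonneg_left e1 hδ.le
    have e3 : δ * (4 / δ * (cB + 1 + δ)) = 4 * (cB + 1 + δ) := by
      field_simp
    linarith
  have n3 : (X₀ : ℝ) + 4 ≤ v := by linarith
  obtain ⟨q, hq⟩ : ∃ q : ℕ, q = ⌊v⌋₊ := ⟨_, rfl⟩
  have v0 : 0 ≤ v := by linarith
  have q3 : (q : ℝ) ≤ v := by rw [hq]; exact Nat.floor_le v0
  have q4 : v < q + 1 := by rw [hq]; exact Nat.lt_floor_add_one v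
  have q5 : v / 2 ≤ q := by linarith
  have q6 : X₀ ≤ q := by
    have e1 : (X₀ : ℝ) ≤ q := by linarith
    exact_mod_cast e1
  have m1 : κ₁ * v / 2 ≤ κ₁ * q := by
    have := mul_le_mul_of_nonneg_left q5 hκ₁.le
    linarith
  obtain ⟨M, hM⟩ : ∃ M : ℝ, M = 2 * ((q : ℝ) + 3) * Real.log 2 := ⟨_, rfl⟩
  have lg1 : Real.log 2 ≤ 1 := by linarith [Real.log_two_lt_d9]
  have lg0 : 0 ≤ Real.log 2 := Real.log_nonneg (by norm_num)
  have q00 : (0 : ℝ) ≤ q := Nat.cast_nonneg q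
  have M0 : 0 ≤ M := by rw [hM]; positivity
  have M1 : M ≤ 2 * (v + 3) := by
    rw [hM]
    have e1 : 2 * ((q : ℝ) + 3) * Real.log 2 ≤ 2 * ((q : ℝ) + 3) * 1 :=
      mul_le_mul_of_nonneg_left lg1 (by positivity)
    linarith
  have m2 : ϖ * M ≤ κ₁ / 64 * (2 * (v + 3)) := mul_le_mul w3 M1 M0 (by positivity)
  have m3 : ϖ * M ≤ δ / 64 * (2 * (v + 3)) := mul_le_mul w4 M1 M0 (by positivity)
  have m4 : κ₀ * v ≤ κ₁ / 16 * v := mul_le_mul_of_nonneg_right q1' v0
  have m5 : κ₀ * v ≤ δ / 16 * v := mul_le_mul_of_nonneg_right q2 v0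
  have m6 : δ / 4 * q ≤ δ / 4 * v := mul_le_mul_of_nonneg_left q3 (by positivity)
  -- the digits
  obtain ⟨g, hg⟩ : ∃ g : Fin 2 → ℕ, g = fun i : Fin 2 =>
    ⌊(sn (k + (i : ℕ)) a + X') * J⌋₊ := ⟨_, rfl⟩
  have g1 : ∀ i : Fin 2, (g i : ℝ) ≤ (sn (k + i) a + X') * J ∧
      (sn (k + i) a + X') * J < g i + 1 := by
    intro i
    have e1 := st (k + i) (by omega) (by omega)
    have e2 : 0 ≤ (sn (k + i) a + X') * J := mul_nonneg (by linarith) hJ0
    rw [hg]
    exact ⟨Nat.floor_le e2, Nat.lt_floor_add_one _⟩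
  have g2 : ∀ i : Fin 2, |(g i : ℝ) - (sn (k + i) a + X') * J| ≤ 2 := fun i => by
    obtain ⟨e1, e2⟩ := g1 i
    rw [abs_le]
    constructor <;> linarith
  have hqv : |(q : ℝ) - (X' - X) * J| ≤ 2 := by
    rw [← hv, abs_le]
    constructor <;> linarith
  have aJ0 : 0 ≤ a * (J : ℝ) := by positivity
  obtain ⟨n, hn⟩ : ∃ n : ℕ, n = ⌊a * (J : ℝ)⌋₊ := ⟨_, rfl⟩
  have nJ1 : (n : ℝ) ≤ a * J := by rw [hn]; exact Nat.floor_le aJ0
  have nJ2 : a * J < n + 1 := by rw [hn]; exact Nat.lt_floor_add_one _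
  have hnJ : n ≤ J := by
    have e1 : a * (J : ℝ) ≤ 1 * J := mul_le_mul_of_nonneg_right a1 hJ0
    have e2 : (n : ℝ) ≤ J := by linarith
    exact_mod_cast e2
  have hqJ : q ≤ J - n := by
    have e1 : (X' - X + a) * (J : ℝ) ≤ 1 * J :=
      mul_le_mul_of_nonneg_right (by linarith [hB.o1]) hJ0
    have e2 : ((q + n : ℕ) : ℝ) ≤ J := by
      push_cast
      rw [hv] at q3
      linarith
    have e3 : q + n ≤ J := by exact_mod_cast e2
    omega
  have gf : ∀ i : ℕ, ∀ l : Fin 2, |(g l : ℝ) - i * (n : ℕ) -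
      (fun l : ℕ => sn (k + l) a + X' - i * a) l * J| ≤ i + 4 := fun i l => by
    obtain ⟨e1, e2⟩ := g1 l
    have i0 : (0 : ℝ) ≤ i := Nat.cast_nonneg i
    have e3 : 0 ≤ (i : ℝ) * (a * J - n) := mul_nonneg i0 (by linarith)
    have e4 : (i : ℝ) * (a * J - n) ≤ i * 1 := mul_le_mul_of_nonneg_left (by linarith) i0
    have e5 : (g l : ℝ) - i * (n : ℕ) - (fun l : ℕ => sn (k + l) a + X' - i * a) l * J =
        ((g l : ℝ) - (sn (k + l) a + X') * J) + i * (a * J - n) := by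
      ring
    rw [e5, abs_le]
    constructor <;> linarith
  have gc : ∀ i : ℕ, ∀ l : Fin 2, |(g l : ℝ) - q - i * (n : ℕ) -
      (fun l : ℕ => sn (k + l) a + X - i * a) l * J| ≤ i + 4 := fun i l => by
    obtain ⟨e1, e2⟩ := g1 l
    have i0 : (0 : ℝ) ≤ i := Nat.cast_nonneg i
    have e3 : 0 ≤ (i : ℝ) * (a * J - n) := mul_nonneg i0 (by linarith)
    have e4 : (i : ℝ) * (a * J - n) ≤ i * 1 := mul_le_mul_of_nonneg_left (by linarith) i0
    have e5 : (g l : ℝ) - q - i * (n : ℕ) - (fun l : ℕ => sn (k + l) a + X - i * a) l * J =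
        ((g l : ℝ) - (sn (k + l) a + X') * J) + i * (a * J - n) + (v - q) := by
      rw [hv]
      ring
    rw [e5, abs_le]
    constructor <;> linarith
  -- the points and the rows
  obtain ⟨B, Nn, υ, z, Yb, hBA, hPB, hNn, hY, hrow⟩ := GR Hb H hSt g q g2 hqv
  have hPB' : 1 / 2 * Pe F.p A ≤ Pe F.p B := by
    refine le_trans ?_ hPB
    exact mul_le_mul_of_nonneg_right (by linarith) hA.le
  have hPB0 : 0 < Pe F.p B := lt_of_lt_of_le (by positivity) hPB'
  have himg := GF Hb H hSt hOk g q g2 hqv B Nn υ z Yb hBA hPB' hY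
  obtain ⟨-, hfull⟩ := GT B hBA hPB'
  obtain ⟨c1, c2⟩ := hJ₀ J ((le_max_left _ _).trans hJ) hSt.ldp B hBA hPB0
    (fun l i => ⌊(if i = 0 then N l 0 else N l 1 + a) * J⌋₊) (fun _ _ => rfl)
  obtain ⟨za, hza⟩ := za_ex F A a
  have hcl := isLaw_cond F.isLaw hPB0
  have b0 := hcl.nonneg
  have hin : ∀ ω, 0 < Pool.Agent.H49.Ent.cond F.p B True ω → B ω := fun ω hω =>
    Pool.LA91.of_cond_pos hω
  rw [← hn] at hza y1 y2 y3 y4 c1 c2 himg ⊢
  obtain ⟨y, hy⟩ : ∃ y : F.Ω → (ℕ → ℕ → ℤ) × (ℕ × F.ζ), y = fun ω =>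
    (jet2 F c n H 0 k N ω, F.W ω) := ⟨_, rfl⟩
  obtain ⟨Cy, hCy⟩ : ∃ Cy : LnT F → (Fin k × Fin (D₁ + 1 + 1) → ℤ) × (F.ζ × ℕ), Cy = fun s =>
    (vcG c k ⌊b * J⌋₊ n D₁ (fun l i => ⌊(if i = 0 then N l 0 else N l 1 + a) * J⌋₊) Hb s, s.2) :=
    ⟨_, rfl⟩
  have hWy : ∀ ω ω', y ω = y ω' → F.T ω = F.T ω' ∧ F.Z ω = F.Z ω' := fun ω ω' ee => by
    rw [hy] at ee
    have e2 : F.W ω = F.W ω' := (Prod.ext_iff.1 ee).2
    exact ⟨(Prod.ext_iff.1 e2).1, (Prod.ext_iff.1 e2).2⟩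
  have hpart : ∀ {S' T' : Type} (U : F.Ω → S') (V : F.Ω → T'),
      CH (Pool.Agent.H49.Ent.cond F.p B True) U V ≤
        2 * CH (Pool.Agent.H49.Ent.cond F.p A True) U V := fun U V => by
    have e1 := Pool.V0S.CH_part hA hBA (c₀ := 1 / 2) (by norm_num) hPB' U V
    linarith
  have hpo : ∀ {S' T' : Type} (i : ℕ) (Zo : F.Ω → S') (Zp : F.Ω → T'), i ≤ D₁ + 1 →
      (∀ ω ω', A ω → A ω' → Zp ω = Zp ω' → Zo ω = Zo ω') →
      CH (Pool.Agent.H49.Ent.cond F.p A True)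
        (oJ c k n i H fun l => sn (k + l) a + X' - i * a) Zo ≤ κ₀ * (X' - X) * J →
      CH (Pool.Agent.H49.Ent.cond F.p B True) (pO (pT c k n H) n g i) Zp ≤ κ₁ * q := by
    intro S' T' i Zo Zp hi hz hh
    have e1 := ch_via b0 (pO (pT c k n H) n g i)
      (oJ c k n i H fun l => sn (k + l) a + X' - i * a) Zp le_rfl
    have e2 := p_of_o (Z := fun ω => ((oJ c k n i H fun l => sn (k + l) a + X' - i * a) ω, Zp ω))
      (g := g) (c := c) (k := k) (H := H) (N := fun l => sn (k + l) a + X' - i * a) (d := D₁ + 1 + j) hcl hnJ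
      (by omega) (gf i) fun ω ω' _ _ ee => (Prod.ext_iff.1 ee).1
    have e3 : CH (Pool.Agent.H49.Ent.cond F.p B True)
        (oJ c k n i H fun l => sn (k + l) a + X' - i * a) Zp ≤
        CH (Pool.Agent.H49.Ent.cond F.p B True)
        (oJ c k n i H fun l => sn (k + l) a + X' - i * a) Zo :=
      CH_mono_cond b0 fun ω ω' hω hω' ee => hz ω ω' (hBA ω (hin ω hω)) (hBA ω' (hin ω' hω')) ee
    have e4 := hpart (oJ c k n i H fun l => sn (k + l) a + X' - i * a) Zo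
    have e5 : κ₀ * (X' - X) * J = κ₀ * v := by rw [hv]; ring
    rw [e5] at hh
    rw [← hcB] at e2
    linarith
  have ha0 := (isLaw_cond F.isLaw hA).nonneg
  have v1 : CH (Pool.Agent.H49.Ent.cond F.p B True) (pO (pT c k n H) n g j)
      (oJ c k n j H fun l => sn (k + l) a + X' - j * a) ≤ cB := by
    rw [hcB]
    exact p_of_o (c := c) (k := k) (H := H) (N := fun l => sn (k + l) a + X' - j * a) hcl hnJ
      (by omega) (gf j) fun _ _ _ _ ee => ee
  have v2 : CH (Pool.Agent.H49.Ent.cond F.p B True)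
      (oJ c k n j H fun l => sn (k + l) a + X' - j * a) (pO (pT c k n H) n g j) ≤ cB := by
    rw [hcB]
    exact o_of_p (c := c) (k := k) (H := H) (N := fun l => sn (k + l) a + X' - j * a) hcl hnJ
      (by omega) (gf j) fun _ _ _ _ ee => ee
  have v3 : CH (Pool.Agent.H49.Ent.cond F.p B True)
      (oJ c k n j H fun l => sn (k + l) a + X - j * a)
      (fun ω l => pO (pT c k n H) n g j ω l / ((2 ^ q : ℕ) : ℤ)) ≤ cB := by
    rw [hcB]
    exact o_of_up (c := c) (k := k) (H := H) (N := fun l => sn (k + l) a + X - j * a) hcl hnJ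
      (by omega) (gc j) fun _ _ _ _ ee l => congrFun ee l
  have v4 : CH (Pool.Agent.H49.Ent.cond F.p B True)
      (fun ω l => pO (pT c k n H) n g j ω l / ((2 ^ q : ℕ) : ℤ))
      (oJ c k n j H fun l => sn (k + l) a + X - j * a) ≤ cB := by
    rw [hcB]
    exact up_of_o (c := c) (k := k) (H := H) (N := fun l => sn (k + l) a + X - j * a) hcl hnJ
      (by omega) (gc j) fun _ _ _ _ ee => ee
  have hMd : ∀ E : F.Ω → Prop, 0 < Pe F.p E → CH (Pool.Agent.H49.Ent.cond F.p E True)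
      (oJ c k n j H fun l => sn (k + l) a + X' - j * a)
      (oJ c k n j H fun l => sn (k + l) a + X - j * a) ≤ M := fun E hE => by
    rw [hM]
    refine o_dig (isLaw_cond F.isLaw hE) fun l => ?_
    have e1 : (sn (k + l) a + X' - j * a) * J = (sn (k + l) a + X - j * a) * J + v := by
      rw [hv]
      ring
    linarith
  have key := HS (F := F) (a := n) (X := fun ω => Pool.STR16.hT c k n H ω) (P := pT c k n H)
    (Fp := ptr F J) (z := z) (p := Pool.Agent.H49.Ent.cond F.p B True) (g := g) (q := q)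
    (za := za) (zb := cR F A x) (Cy := Cy) (y := y) (Yb := Yb) hcl hnJ hqJ q6
    (fun s' i => pT_deg (fun s'' l => by
      obtain ⟨V, z₁, z₂, G₁, h3, h4⟩ := hSt.ldp.lt (k + l) (by omega) (by omega)
      rw [← h4]
      exact h3.deg _) s' i)
    (fun ω _ i => hT_eval c k hnJ H ω i)
    (fun ω hω i => by
      have e1 := hY.hz ω (hin ω hω) i
      rw [← hn] at e1
      exact e1)
    (fun ω ω' hω hω' e1 _ _ => by
      rw [hza ω (hBA ω (hin ω hω)), hza ω' (hBA ω' (hin ω' hω'))]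
      exact Pool.V0N.cR_mono hax x1 e1)
    (fun ω ω' hω hω' e1 e2 e3 => by
      rw [hza ω (hBA ω (hin ω hω)), hza ω' (hBA ω' (hin ω' hω'))] at e3
      rw [hCy] at e2
      obtain ⟨e7, e8⟩ : vcG c k ⌊b * J⌋₊ n D₁
          (fun l i => ⌊(if i = 0 then N l 0 else N l 1 + a) * J⌋₊) Hb (slam F n ω) =
          vcG c k ⌊b * J⌋₊ n D₁
          (fun l i => ⌊(if i = 0 then N l 0 else N l 1 + a) * J⌋₊) Hb (slam F n ω') ∧
          (slam F n ω).2 = (slam F n ω').2 := Prod.ext_iff.1 e2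
      refine hY.hY ω ω' (hin ω hω) (hin ω' hω') ?_ ?_ ?_ e3
      · rw [← hn]
        exact e1
      · rw [← hn]
        exact e8
      · rw [← hn]
        refine vcd_of (fun l i => ?_) e7
        obtain ⟨e5, e6, -⟩ := hN l l.2
        refine Nat.le_floor ((hNn l).trans (mul_le_mul_of_nonneg_right ?_ hJ0))
        split_ifs <;> linarith)
    (by
      have e1 : κ₁ / 4 * (X' - X) * J = κ₁ / 4 * v := by rw [hv]; ring
      rw [e1] at hfull
      linarith)
    (fun ω ω' _ _ ee => hWy ω ω' ee)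
    (by
      have e1 : CH (Pool.Agent.H49.Ent.cond F.p B True) (fun ω => Cy (slam F n ω)) y ≤
          CH (Pool.Agent.H49.Ent.cond F.p B True) (fun ω => vcG c k ⌊b * J⌋₊ n D₁
            (fun l i => ⌊(if i = 0 then N l 0 else N l 1 + a) * J⌋₊) Hb (slam F n ω)) y := by
        refine CH_mono_left b0 fun ω ω' _ _ hh => ?_
        obtain ⟨e2, e3⟩ := Prod.ext_iff.1 hh
        obtain ⟨e4, e5⟩ := hWy ω ω' e3
        rw [hCy]
        refine Prod.ext e2 (Prod.ext e5 ?_)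
        show F.T ω / 2 ^ (J - n) = F.T ω' / 2 ^ (J - n)
        rw [e4]
      rw [hy] at e1 ⊢
      linarith)
    (by
      have e1 : CH (Pool.Agent.H49.Ent.cond F.p B True) y
          (fun ω => (Cy (slam F n ω), (F.T ω, F.Z ω))) ≤
          CH (Pool.Agent.H49.Ent.cond F.p B True) y (fun ω => (vcG c k ⌊b * J⌋₊ n D₁
            (fun l i => ⌊(if i = 0 then N l 0 else N l 1 + a) * J⌋₊) Hb (slam F n ω),
              (F.T ω, F.Z ω))) := by
        refine CH_mono_cond b0 fun ω ω' _ _ hh => ?_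
        rw [hCy] at hh
        simp only [Prod.mk.injEq] at hh ⊢
        exact ⟨hh.1.1, hh.2⟩
      rw [hy] at e1 ⊢
      linarith)
    (fun i hi hij => hpo i _ _ hi (fun ω ω' _ _ ee => by
      rw [hy] at ee
      simp only [Prod.mk.injEq] at ee ⊢
      exact ⟨ee.2.1, ee.1, ee.2.2⟩) (y1 i hi hij))
    (fun i hi hij => hpo i _ _ hi (fun ω ω' hω hω' ee => by
      rw [hy] at ee
      dsimp only at ee
      rw [hza ω hω, hza ω' hω'] at ee
      simp only [Prod.mk.injEq] at ee ⊢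
      exact ⟨ee.2.1, ee.1, ee.2.2⟩) (y2 i hi hij))
    (by
      have e1 := ch_via b0 (fun ω l => pO (pT c k n H) n g j ω l / ((2 ^ q : ℕ) : ℤ))
        (oJ c k n j H fun l => sn (k + l) a + X - j * a) (fun ω => (cR F A x ω, y ω)) le_rfl
      have e2 : CH (Pool.Agent.H49.Ent.cond F.p B True)
          (fun ω l => pO (pT c k n H) n g j ω l / ((2 ^ q : ℕ) : ℤ))
          (fun ω => ((oJ c k n j H fun l => sn (k + l) a + X - j * a) ω,
            (fun ω => (cR F A x ω, y ω)) ω)) ≤ cB :=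
        (CH_mono_cond b0 fun _ _ _ _ ee => (Prod.ext_iff.1 ee).1).trans v4
      have e3 : CH (Pool.Agent.H49.Ent.cond F.p B True)
          (oJ c k n j H fun l => sn (k + l) a + X - j * a) (fun ω => (cR F A x ω, y ω)) ≤
          CH (Pool.Agent.H49.Ent.cond F.p B True)
          (oJ c k n j H fun l => sn (k + l) a + X - j * a)
          (fun ω => (jet2 F c n H 0 k N ω, (cR F A x ω, F.W ω))) :=
        CH_mono_cond b0 fun ω ω' _ _ ee => by
          rw [hy] at ee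
          simp only [Prod.mk.injEq] at ee ⊢
          exact ⟨ee.2.1, ee.1, ee.2.2⟩
      have e4 := hpart (oJ c k n j H fun l => sn (k + l) a + X - j * a)
        (fun ω => (jet2 F c n H 0 k N ω, (cR F A x ω, F.W ω)))
      have e5 : κ₀ * (X' - X) * J = κ₀ * v := by rw [hv]; ring
      rw [e5] at y3
      linarith)
    (by
      refine (tr_num F.isLaw hBA hA (ϖ := ϖ) (M := M) (c := cB) (e := κ₀ * v) w0.le (by linarith)
        hPB (o' := oJ c k n j H fun l => sn (k + l) a + X' - j * a)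
        (o := oJ c k n j H fun l => sn (k + l) a + X - j * a)
        (zb := fun ω => (cR F A x ω, y ω)) v1 v2 v3 v4 hMd ?_).trans ?_
      · have e1 : CH (Pool.Agent.H49.Ent.cond F.p A True)
            (oJ c k n j H fun l => sn (k + l) a + X' - j * a)
            (fun ω => ((oJ c k n j H fun l => sn (k + l) a + X - j * a) ω,
              (za (slam F n ω), y ω))) ≤
            CH (Pool.Agent.H49.Ent.cond F.p A True)
            (oJ c k n j H fun l => sn (k + l) a + X' - j * a)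
            (fun ω => ((oJ c k n j H fun l => sn (k + l) a + X - j * a) ω,
              (jet2 F c n H 0 k N ω, (cR F A a ω, F.W ω)))) :=
          CH_mono_cond ha0 fun ω ω' hω hω' ee => by
            rw [hy] at ee
            dsimp only at ee
            rw [hza ω (Pool.LA91.of_cond_pos hω), hza ω' (Pool.LA91.of_cond_pos hω')] at ee
            simp only [Prod.mk.injEq] at ee ⊢
            exact ⟨ee.1, ee.2.2.1, ee.2.1, ee.2.2.2⟩
        have e2 : CH (Pool.Agent.H49.Ent.cond F.p A True)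
            (oJ c k n j H fun l => sn (k + l) a + X' - j * a)
            (fun ω => ((oJ c k n j H fun l => sn (k + l) a + X - j * a) ω,
              (jet2 F c n H 0 k N ω, (cR F A x ω, F.W ω)))) ≤
            CH (Pool.Agent.H49.Ent.cond F.p A True)
            (oJ c k n j H fun l => sn (k + l) a + X' - j * a)
            (fun ω => ((oJ c k n j H fun l => sn (k + l) a + X - j * a) ω,
              (cR F A x ω, y ω))) :=
          CH_mono_cond ha0 fun ω ω' _ _ ee => by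
            rw [hy]
            simp only [Prod.mk.injEq] at ee ⊢
            exact ⟨ee.1, ee.2.2.1, ee.2.1, ee.2.2.2⟩
        have e5 : κ₀ * (X' - X) * J = κ₀ * v := by rw [hv]; ring
        rw [e5] at y4
        linarith
      · linarith)
    (fun l hl E e1 e2 => by
      have e3 := hrow l hl E (w1.trans e1) e2
      refine e3.trans ?_
      have e4 : (CR * φ + κ₁ / 8 * (X' - X)) * J ≤ κ₁ * q := by
        have e5 : (CR * φ + κ₁ / 8 * (X' - X)) * J ≤
            (κ₀ * (X' - X) + κ₁ / 8 * (X' - X)) * J :=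
          mul_le_mul_of_nonneg_right (by linarith) hJ0
        have e6 : (κ₀ * (X' - X) + κ₁ / 8 * (X' - X)) * J = κ₀ * v + κ₁ / 8 * v := by
          rw [hv]; ring
        linarith
      linarith)
    (fun u' hu' => by
      intro j' kL kP ka E d1 d2 d3 i hi G' f1 f2 f3
      have h4 := himg u' hu' j' kL kP ka E d1 d2 d3 i hi G' f1 f2 f3
      have e4 : (CF * φ + CF * κ + κ₁ / 16 * (X' - X)) * J ≤ κ₁ * q := by
        have e7 : CF * κ ≤ CF * (κ₀ * (X' - X)) := mul_le_mul_of_nonneg_left hκ hCF0.le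
        have e8 : CF * κ₀ * (X' - X) ≤ κ₁ / 16 * (X' - X) :=
          mul_le_mul_of_nonneg_right q1 d0.le
        have e5 : (CF * φ + CF * κ + κ₁ / 16 * (X' - X)) * J ≤
            (κ₀ * (X' - X) + κ₁ / 16 * (X' - X) + κ₁ / 16 * (X' - X)) * J :=
          mul_le_mul_of_nonneg_right (by linarith) hJ0
        have e6 : (κ₀ * (X' - X) + κ₁ / 16 * (X' - X) + κ₁ / 16 * (X' - X)) * J =
            κ₀ * v + κ₁ / 8 * v := by
          rw [hv]; ring
        linarith
      linarith)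
  have fin := tr_end F.isLaw hBA hA (ϖ := ϖ) (M := M) (c := cB) (e₀ := κ₀ * v) (e₁ := δ / 4 * q)
    (by linarith) hPB (o' := oJ c k n j H fun l => sn (k + l) a + X' - j * a)
    (o := oJ c k n j H fun l => sn (k + l) a + X - j * a) (p' := pO (pT c k n H) n g j)
    (zb := fun ω => (cR F A x ω, y ω)) v2 hMd (by
      have e2 : CH (Pool.Agent.H49.Ent.cond F.p A True)
          (oJ c k n j H fun l => sn (k + l) a + X - j * a) (fun ω => (cR F A x ω, y ω)) ≤
          CH (Pool.Agent.H49.Ent.cond F.p A True)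
          (oJ c k n j H fun l => sn (k + l) a + X - j * a)
          (fun ω => (jet2 F c n H 0 k N ω, (cR F A x ω, F.W ω))) :=
        CH_mono_cond ha0 fun ω ω' _ _ ee => by
          rw [hy] at ee
          simp only [Prod.mk.injEq] at ee ⊢
          exact ⟨ee.2.1, ee.1, ee.2.2⟩
      have e5 : κ₀ * (X' - X) * J = κ₀ * v := by rw [hv]; ring
      rw [e5] at y3
      linarith) key
  have e2 : CH (Pool.Agent.H49.Ent.cond F.p A True)
      (oJ c k n j H fun l => sn (k + l) a + X' - j * a)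
      (fun ω => (jet2 F c n H 0 k N ω, (cR F A x ω, F.W ω))) ≤
      CH (Pool.Agent.H49.Ent.cond F.p A True)
      (oJ c k n j H fun l => sn (k + l) a + X' - j * a) (fun ω => (cR F A x ω, y ω)) :=
    CH_mono_cond ha0 fun ω ω' _ _ ee => by
      rw [hy]
      simp only [Prod.mk.injEq] at ee ⊢
      exact ⟨ee.2.1, ee.1, ee.2.2⟩
  have e5 : δ * (X' - X) * J = δ * v := by rw [hv]; ring
  rw [e5]
  linarith

end Pool.STR6
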